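import Pool.Agent.Lib.MP_c108b5_al.Final

/-!
# Epimorphisms of Poisson Hopf algebras are surjective
-/

open Pool.Agent.PoissonHopf

universe u

/-- For every field `k`, every epimorphism in the category of Poisson Hopf algebras over `k` is
a surjective map. The category has as objects the commutative Hopf algebras with a bracket
satisfying `IsPoissonHopf` and as morphisms the bialgebra maps preserving brackets. -/
theorem Pool.Agent.Results.MP_c108b5_al.EpiSurj.result {k : Type u} [Field k] {A B : Type u}
    [CommRing A] [HopfAlgebra k A] [CommRing B] [HopfAlgebra k B]
    (brA : A → A → A) (brB : B → B → B)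
    (hA : IsPoissonHopf k brA) (hB : IsPoissonHopf k brB) (f : A →ₐc[k] B)
    (hf : ∀ a a' : A, f (brA a a') = brB (f a) (f a'))
    (hepi : ∀ (C : Type u) [CommRing C] [HopfAlgebra k C] (brC : C → C → C),
      IsPoissonHopf k brC → CancelsInto f brB brC) :
    Function.Surjective f :=
  surjective_unbundled brA brB hA hB f hf hepi
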